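import Pool.Agent.MP_e4cac8_mp.Cr.Main

open Set MeasureTheory Pool.Agent.MP_0b7119_mp.G

/-- For `d ≥ 2`, `p > d` and `m > 0` the critical norm of the Dirac Keller problem is the
`L^p` norm of the radial potential `p μ / (μ² + |x|²)` with `μ = (p - d) / (2 m)`. -/
theorem Pool.Agent.Results.MP_e4cac8_mp.CriticalNorm.result
    (E S : Type) [NormedAddCommGroup E] [InnerProductSpace ℝ E] [FiniteDimensional ℝ E]
    [MeasurableSpace E] [BorelSpace E] [NormedAddCommGroup S] [InnerProductSpace ℂ S]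
    [CompleteSpace S] [FiniteDimensional ℂ S] (d : ℕ) (hd : 2 ≤ d)
    (e : OrthonormalBasis (Fin d) ℝ E) (hS : 2 ≤ Module.finrank ℂ S)
    (α : Fin d → S →L[ℂ] S) (β : S →L[ℂ] S) (h : IsDiracRep α β)
    (m p : ℝ) (hm : 0 < m) (hp : (d : ℝ) < p) :
    alphaStar e α β m p =
      eLpNorm (fun x : E => p * ((p - d) / (2 * m)) / (((p - d) / (2 * m)) ^ 2 + ‖x‖ ^ 2))
        (ENNReal.ofReal p) volume := by
  have : Nontrivial S := Module.nontrivial_of_finrank_pos (R := ℂ) (by omega)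
  exact Pool.Agent.MP_e4cac8_mp.Cr.main (e := e) ⟨h, hd, hm, exists_ne 0⟩ hp
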