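import Pool.Agent.Mg.Fe4cac8.G4fa3ae

open Set MeasureTheory Pool.Agent.MP_0b7119_mp.G

/-- Optimal potentials of the Dirac Keller problem whose height `M` is below an explicit multiple
of `m + λ` are radial and nonincreasing. -/
theorem Pool.Agent.Results.MP_e4cac8_mp.Height.result
    (E S : Type) [NormedAddCommGroup E] [InnerProductSpace ℝ E] [FiniteDimensional ℝ E]
    [MeasurableSpace E] [BorelSpace E] [NormedAddCommGroup S] [InnerProductSpace ℂ S]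
    [CompleteSpace S] [FiniteDimensional ℂ S] (d : ℕ) (hd : 2 ≤ d)
    (e : OrthonormalBasis (Fin d) ℝ E) (hS : 2 ≤ Module.finrank ℂ S)
    (α : Fin d → S →L[ℂ] S) (β : S →L[ℂ] S) (h : IsDiracRep α β) (m p A M : ℝ) (hm : 0 < m)
    (hp : (d : ℝ) ≤ p) (hA : 0 < A) (hs : ENNReal.ofReal A < alphaStar e α β m p)
    (V : E → ℝ) (hV : V ∈ Pot E p)
    (hn : eLpNorm V (ENNReal.ofReal p) volume = ENNReal.ofReal A)
    (ho : ∀ W ∈ Pot E p, eLpNorm W (ENNReal.ofReal p) volume = ENNReal.ofReal A →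
      lamD e α β m V ≤ lamD e α β m W)
    (hM : ∀ᵐ x, V x ≤ M) (h₁ : ((d : ℝ) - 1) * M < m + lamD e α β m V)
    (h₂ : ((d : ℝ) - 2) * (m + lamD e α β m V + M) ^ 2 <
      ((d : ℝ) - 1) * (m + lamD e α β m V) * (m + lamD e α β m V + M * (p - 3) / (p - 1))) :
    ∃ (x₀ : E) (φ : ℝ → ℝ), Antitone φ ∧ V =ᵐ[volume] fun x => φ ‖x - x₀‖ := by
  obtain ⟨c, -, H⟩ := Pool.Agent.MP_e4cac8_mp.final e h hd hS
  exact H m p A hm hA hs V hV hn ho (Or.inl ⟨hp, M, hM, h₁, h₂⟩)
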