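import Pool.Agent.Mg.Fe4cac8.G4fa3ae

open Set MeasureTheory Pool.Agent.MP_0b7119_mp.G

/-- Optimal potentials of the Dirac Keller problem are radial and nonincreasing when
`A ^ p ≤ c (2 m / d) ^ (p - d)`, with one constant `c` for all `m > 0` and `p > d`. -/
theorem Pool.Agent.Results.MP_e4cac8_mp.SmallNorm.result
    (E S : Type) [NormedAddCommGroup E] [InnerProductSpace ℝ E] [FiniteDimensional ℝ E]
    [MeasurableSpace E] [BorelSpace E] [NormedAddCommGroup S] [InnerProductSpace ℂ S]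
    [CompleteSpace S] [FiniteDimensional ℂ S] (d : ℕ) (hd : 2 ≤ d)
    (e : OrthonormalBasis (Fin d) ℝ E) (hS : 2 ≤ Module.finrank ℂ S)
    (α : Fin d → S →L[ℂ] S) (β : S →L[ℂ] S) (h : IsDiracRep α β) :
    ∃ c : ℝ, 0 < c ∧ ∀ m p A : ℝ, 0 < m → (d : ℝ) < p → 0 < A →
      ENNReal.ofReal A < alphaStar e α β m p → A ^ p ≤ c * (2 * m / d) ^ (p - d) →
      ∀ V ∈ Pot E p, eLpNorm V (ENNReal.ofReal p) volume = ENNReal.ofReal A →
        (∀ W ∈ Pot E p, eLpNorm W (ENNReal.ofReal p) volume = ENNReal.ofReal A →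
          lamD e α β m V ≤ lamD e α β m W) →
        ∃ (x₀ : E) (φ : ℝ → ℝ), Antitone φ ∧ V =ᵐ[volume] fun x => φ ‖x - x₀‖ := by
  obtain ⟨c, hc, H⟩ := Pool.Agent.MP_e4cac8_mp.final e h hd hS
  exact ⟨c, hc, fun m p A hm hp hA hs hb V hV hn ho => H m p A hm hA hs V hV hn ho (Or.inr ⟨hp, hb⟩)⟩
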